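import Mathlib

/-!
# A bigraph that is edge-transitive under its fold involutions but is not cut-percolating

A bigraph is given by two finite vertex types `V`, `W` and an edge relation `E : V → W → Prop`.
-/

namespace Pool.Agent.Results.MP_98b297_co.CutPercolation

open scoped Classical

section Defs

variable {V W : Type}

/-- The underlying graph (on `V ⊕ W`) of the bigraph with edge relation `E`. -/
def graph (E : V → W → Prop) : SimpleGraph (V ⊕ W) where
  Adj x y := (∃ v w, x = Sum.inl v ∧ y = Sum.inr w ∧ E v w) ∨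
    (∃ v w, x = Sum.inr w ∧ y = Sum.inl v ∧ E v w)
  symm := ⟨by
    rintro x y (⟨v, w, hx, hy, h⟩ | ⟨v, w, hx, hy, h⟩)
    · exact Or.inr ⟨v, w, hy, hx, h⟩
    · exact Or.inl ⟨v, w, hy, hx, h⟩⟩
  loopless := ⟨by
    rintro x (⟨v, w, hx, hy, h⟩ | ⟨v, w, hx, hy, h⟩)
    · rw [hx] at hy; exact absurd hy (by simp)
    · rw [hx] at hy; exact absurd hy (by simp)⟩

/-- The automorphism group of the bigraph: pairs of permutations of the two sides that preserve
the edge relation. -/
def Aut (E : V → W → Prop) : Subgroup (Equiv.Perm V × Equiv.Perm W) where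
  carrier := {φ | ∀ v w, E (φ.1 v) (φ.2 w) ↔ E v w}
  mul_mem' := by
    intro a b ha hb v w
    simp only [Set.mem_setOf_eq] at ha hb ⊢
    simp only [Prod.fst_mul, Prod.snd_mul, Equiv.Perm.coe_mul, Function.comp_apply]
    rw [ha, hb]
  one_mem' := by intro v w; simp
  inv_mem' := by
    intro a ha v w
    simp only [Set.mem_setOf_eq] at ha
    have := ha (a.1⁻¹ v) (a.2⁻¹ w)
    simpa using this.symm

/-- The action of a pair of permutations on the vertex set `V ⊕ W`. -/
def act (φ : Equiv.Perm V × Equiv.Perm W) : V ⊕ W → V ⊕ W := Sum.map φ.1 φ.2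

/-- The set of fixed vertices. -/
def Fix (φ : Equiv.Perm V × Equiv.Perm W) : Set (V ⊕ W) := {x | act φ x = x}

/-- The graph `G - Fix(φ)`. -/
def minusFix (E : V → W → Prop) (φ : Equiv.Perm V × Equiv.Perm W) :
    SimpleGraph ((Fix φ)ᶜ : Set (V ⊕ W)) :=
  (graph E).induce (Fix φ)ᶜ

/-- A cut-involution: an automorphism of order two such that `G - Fix(φ)` is disconnected. -/
def IsCutInvolution (E : V → W → Prop) (φ : Equiv.Perm V × Equiv.Perm W) : Prop :=
  φ ∈ Aut E ∧ φ ≠ 1 ∧ φ * φ = 1 ∧ ¬ (minusFix E φ).Preconnected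

/-- A fold `(φ, L)`: `φ` is a cut-involution, `L` is (the vertex set of) a union of connected
components of `G - Fix(φ)`, and `(L, Fix(φ), φ(L))` partitions the vertex set. -/
def IsFold (E : V → W → Prop) (φ : Equiv.Perm V × Equiv.Perm W) (L : Set (V ⊕ W)) : Prop :=
  IsCutInvolution E φ ∧
  (∃ S : Set (minusFix E φ).ConnectedComponent,
    L = {x | ∃ h : x ∈ (Fix φ)ᶜ, (minusFix E φ).connectedComponentMk ⟨x, h⟩ ∈ S}) ∧
  L ∪ Fix φ ∪ act φ '' L = Set.univ ∧
  Disjoint L (Fix φ) ∧ Disjoint L (act φ '' L) ∧ Disjoint (Fix φ) (act φ '' L)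

/-- The edge set. -/
def edges (E : V → W → Prop) : Set (V × W) := {e | E e.1 e.2}

/-- The left-folding map on the first side. -/
noncomputable def foldV (φ : Equiv.Perm V × Equiv.Perm W) (L : Set (V ⊕ W)) (v : V) : V :=
  if Sum.inl v ∈ L then v else φ.1 v

/-- The left-folding map on the second side. -/
noncomputable def foldW (φ : Equiv.Perm V × Equiv.Perm W) (L : Set (V ⊕ W)) (w : W) : W :=
  if Sum.inr w ∈ L then w else φ.2 w

/-- The preimage of a set of edges under the left-folding map. -/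
def preimage (E : V → W → Prop) (φ : Equiv.Perm V × Equiv.Perm W) (L : Set (V ⊕ W))
    (F : Set (V × W)) : Set (V × W) :=
  {e | e ∈ edges E ∧ (foldV φ L e.1, foldW φ L e.2) ∈ F}

/-- `G` is cut-percolating: there is a sequence `E_0, …, E_m` of sets of edges with `|E_0| = 1`,
`E_m = E(G)`, each `E_i` being the preimage of `E_{i-1}` under the left-folding map of a fold. -/
def IsCutPercolating (E : V → W → Prop) : Prop :=
  ∃ (m : ℕ) (s : ℕ → Set (V × W)),
    (∀ i ≤ m, s i ⊆ edges E) ∧ (s 0).ncard = 1 ∧ s m = edges E ∧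
    ∀ i < m, ∃ φ L, IsFold E φ L ∧ s (i + 1) = preimage E φ L (s i)

/-- The group generated by all cut-involutions that extend to a fold. -/
def foldGroup (E : V → W → Prop) : Subgroup (Equiv.Perm V × Equiv.Perm W) :=
  Subgroup.closure {φ | ∃ L, IsFold E φ L}

/-- `G` has an edge and the fold group acts transitively on the edges. -/
def IsFoldEdgeTransitive (E : V → W → Prop) : Prop :=
  (edges E).Nonempty ∧
    ∀ e ∈ edges E, ∀ e' ∈ edges E, ∃ g ∈ foldGroup E, (g.1 e.1, g.2 e.2) = e'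

end Defs

/-! ## The example: two disjoint copies of the Heawood graph -/

/-- Incidence in the Fano plane: point `i` lies on line `j` iff `i - j ∈ {1, 2, 4}`. -/
def inc (i j : ZMod 7) : Prop := i - j = 1 ∨ i - j = 2 ∨ i - j = 4

instance : DecidableRel inc := fun i j => by unfold inc; infer_instance

/-- Two disjoint copies of the Heawood graph. -/
def HH (x y : Bool × ZMod 7) : Prop := x.1 = y.1 ∧ inc x.2 y.2

lemma inc_two : ∀ i i' : ZMod 7, ∃ j, inc i j ∧ inc i' j := by decide

lemma inc_unique : ∀ i i' j j' : ZMod 7, i ≠ i' → inc i j → inc i' j → inc i j' → inc i' j' →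
    j = j' := by decide

lemma inc_third : ∀ i i' j : ZMod 7, i ≠ i' → inc i j → inc i' j →
    ∃ k, k ≠ i ∧ k ≠ i' ∧ inc k j := by decide

lemma inc_off : ∀ j : ZMod 7, ∃ k, ¬ inc k j := by decide

lemma inc_line : ∀ j j' : ZMod 7, (∀ i, inc i j ↔ inc i j') → j = j' := by decide

lemma inc_pt : ∀ j : ZMod 7, ∃ i, inc i j := by decide

lemma ln_pt : ∀ i : ZMod 7, ∃ j, inc i j := by decide

/-- Every automorphism respects the two copies. -/
lemma copy_eq {φ : Equiv.Perm (Bool × ZMod 7) × Equiv.Perm (Bool × ZMod 7)} (h : φ ∈ Aut HH)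
    (s : Bool) (i i' : ZMod 7) : (φ.1 (s, i)).1 = (φ.1 (s, i')).1 := by
  obtain ⟨j, hj, hj'⟩ := inc_two i i'
  have h1 := (h (s, i) (s, j)).2 ⟨rfl, hj⟩
  have h2 := (h (s, i') (s, j)).2 ⟨rfl, hj'⟩
  exact h1.1.trans h2.1.symm

lemma copy_line {φ : Equiv.Perm (Bool × ZMod 7) × Equiv.Perm (Bool × ZMod 7)} (h : φ ∈ Aut HH)
    (s : Bool) (i j : ZMod 7) : (φ.1 (s, i)).1 = (φ.2 (s, j)).1 := by
  obtain ⟨k, hk⟩ := inc_pt j
  have h1 := (h (s, k) (s, j)).2 ⟨rfl, hk⟩
  rw [copy_eq h s i k]
  exact h1.1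

section fold

variable {φ : Equiv.Perm (Bool × ZMod 7) × Equiv.Perm (Bool × ZMod 7)}
  {L : Set ((Bool × ZMod 7) ⊕ (Bool × ZMod 7))}

/-- `L` is closed under adjacency to non-fixed vertices. -/
lemma fold_closed {V W : Type} {E : V → W → Prop} {φ : Equiv.Perm V × Equiv.Perm W}
    {L : Set (V ⊕ W)} (h : IsFold E φ L) {x y : V ⊕ W}
    (hx : x ∈ L) (hxy : (graph E).Adj x y) (hy : y ∉ Fix φ) : y ∈ L := by
  obtain ⟨_, ⟨S, hS⟩, _⟩ := h
  rw [hS] at hx ⊢
  obtain ⟨hx1, hx2⟩ := hx
  refine ⟨hy, ?_⟩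
  have : (minusFix E φ).connectedComponentMk ⟨y, hy⟩ =
      (minusFix E φ).connectedComponentMk ⟨x, hx1⟩ := by
    rw [SimpleGraph.ConnectedComponent.eq]
    apply SimpleGraph.Adj.reachable
    exact hxy.symm
  rw [this]
  exact hx2

lemma adj_act {V W : Type} {E : V → W → Prop} {φ : Equiv.Perm V × Equiv.Perm W}
    (h : φ ∈ Aut E) {x y : V ⊕ W} (hxy : (graph E).Adj x y) :
    (graph E).Adj (act φ x) (act φ y) := by
  rcases hxy with (⟨v, w, rfl, rfl, h'⟩ | ⟨v, w, rfl, rfl, h'⟩)
  · exact Or.inl ⟨φ.1 v, φ.2 w, rfl, rfl, (h v w).2 h'⟩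
  · exact Or.inr ⟨φ.1 v, φ.2 w, rfl, rfl, (h v w).2 h'⟩

lemma act_act {V W : Type} {φ : Equiv.Perm V × Equiv.Perm W} (h : φ * φ = 1) (x : V ⊕ W) :
    act φ (act φ x) = x := by
  have h1 : φ.1 * φ.1 = 1 := congrArg Prod.fst h
  have h2 : φ.2 * φ.2 = 1 := congrArg Prod.snd h
  rcases x with v | w
  · simp only [act, Sum.map_inl]
    have := congrArg (fun f : Equiv.Perm V => f v) h1
    simpa using this
  · simp only [act, Sum.map_inr]
    have := congrArg (fun f : Equiv.Perm W => f w) h2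
    simpa using this

/-- In a fold, `φ(L)` is also closed under adjacency to non-fixed vertices. -/
lemma fold_closed' {V W : Type} {E : V → W → Prop} {φ : Equiv.Perm V × Equiv.Perm W}
    {L : Set (V ⊕ W)} (h : IsFold E φ L) {x y : V ⊕ W}
    (hx : act φ x ∈ L) (hxy : (graph E).Adj x y) (hy : y ∉ Fix φ) : act φ y ∈ L := by
  refine fold_closed h hx (adj_act h.1.1 hxy) ?_
  intro hfix
  apply hy
  have h2 := act_act h.1.2.2.1 y
  unfold Fix at hfix ⊢
  simp only [Set.mem_setOf_eq] at hfix ⊢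
  rw [h2] at hfix
  exact hfix.symm

lemma fold_cases {V W : Type} {E : V → W → Prop} {φ : Equiv.Perm V × Equiv.Perm W}
    {L : Set (V ⊕ W)} (h : IsFold E φ L) (x : V ⊕ W) (hx : x ∉ Fix φ) :
    x ∈ L ∨ act φ x ∈ L := by
  have : x ∈ L ∪ Fix φ ∪ act φ '' L := by rw [h.2.2.1]; trivial
  rcases this with (h1 | h1) | ⟨y, hy, rfl⟩
  · exact Or.inl h1
  · exact absurd h1 hx
  · right
    rw [act_act h.1.2.2.1 y]
    exact hy

lemma fold_excl {V W : Type} {E : V → W → Prop} {φ : Equiv.Perm V × Equiv.Perm W}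
    {L : Set (V ⊕ W)} (h : IsFold E φ L) (x : V ⊕ W) : ¬ (x ∈ L ∧ act φ x ∈ L) := by
  rintro ⟨h1, h2⟩
  have hd := h.2.2.2.2.1
  rw [Set.disjoint_left] at hd
  exact hd h2 ⟨x, h1, rfl⟩

/-- A line through a point of `L` and a point of `φ(L)` is fixed. -/
lemma line_fixed {V W : Type} {E : V → W → Prop} {φ : Equiv.Perm V × Equiv.Perm W}
    {L : Set (V ⊕ W)} (h : IsFold E φ L) {p q : V} {l : W} (hp : Sum.inl p ∈ L)
    (hq : act φ (Sum.inl q) ∈ L) (h1 : E p l) (h2 : E q l) : φ.2 l = l := by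
  by_contra hne
  have hl : (Sum.inr l : V ⊕ W) ∉ Fix φ := by
    intro hf
    apply hne
    simpa [Fix, act] using hf
  have a1 := fold_closed h hp (Or.inl ⟨p, l, rfl, rfl, h1⟩) hl
  have a2 := fold_closed' h hq (Or.inl ⟨q, l, rfl, rfl, h2⟩) hl
  exact fold_excl h _ ⟨a1, a2⟩

end fold

/-- A fold of two copies of the Heawood graph exchanges the two copies. -/
lemma fold_swaps {φ : Equiv.Perm (Bool × ZMod 7) × Equiv.Perm (Bool × ZMod 7)}
    {L : Set ((Bool × ZMod 7) ⊕ (Bool × ZMod 7))} (h : IsFold HH φ L) (s : Bool) (i : ZMod 7) :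
    (φ.1 (s, i)).1 = !s := by
  have haut := h.1.1
  -- first: if a copy is preserved then all its points are fixed
  have key : ∀ s : Bool, (φ.1 (s, 0)).1 = s → ∀ i, φ.1 (s, i) = (s, i) := by
    intro s hs
    have hcopy : ∀ i, (φ.1 (s, i)).1 = s := fun i => (copy_eq haut s i 0).trans hs
    have hcopy2 : ∀ j, (φ.2 (s, j)).1 = s := fun j => (copy_line haut s 0 j).symm.trans hs
    -- transport to `ZMod 7`
    set f : ZMod 7 → ZMod 7 := fun i => (φ.1 (s, i)).2 with hf
    set g : ZMod 7 → ZMod 7 := fun j => (φ.2 (s, j)).2 with hg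
    have hf1 : ∀ i, φ.1 (s, i) = (s, f i) := fun i => Prod.ext (hcopy i) rfl
    have hg1 : ∀ j, φ.2 (s, j) = (s, g j) := fun j => Prod.ext (hcopy2 j) rfl
    have hinc : ∀ i j, inc (f i) (g j) ↔ inc i j := by
      intro i j
      have := haut (s, i) (s, j)
      rw [hf1, hg1] at this
      simpa [HH] using this
    have hff : ∀ i, f (f i) = i := by
      intro i
      have := act_act h.1.2.2.1 (Sum.inl (s, i))
      simp only [act, Sum.map_inl, hf1] at this
      simpa using this
    intro i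
    rw [hf1]
    by_contra hne
    have hne : f i ≠ i := fun h' => hne (by rw [h'])
    -- name a non fixed point in `L`
    obtain ⟨p, hpL, hpne⟩ : ∃ p, (Sum.inl (s, p) : (Bool × ZMod 7) ⊕ (Bool × ZMod 7)) ∈ L ∧
        f p ≠ p := by
      have hnf : (Sum.inl (s, i) : (Bool × ZMod 7) ⊕ (Bool × ZMod 7)) ∉ Fix φ := by
        intro hfx
        apply hne
        simp only [Fix, act, Set.mem_setOf_eq, Sum.map_inl, hf1] at hfx
        simpa using hfx
      rcases fold_cases h _ hnf with h1 | h1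
      · exact ⟨i, h1, hne⟩
      · refine ⟨f i, ?_, ?_⟩
        · simpa [act, hf1] using h1
        · rw [hff]; exact hne.symm
    have hp'L : act φ (Sum.inl (s, f p)) ∈ L := by
      simpa [act, hf1, hff] using hpL
    -- the line through `p` and `f p`
    obtain ⟨l, hl1, hl2⟩ := inc_two p (f p)
    have hbad : ∀ q m, ¬ inc q l → inc q m → (inc p m ∨ inc (f p) m) → g m ≠ m := by
      intro q m hq hqm hpm hgm
      have e1 : inc p m ↔ inc (f p) m := by
        have := hinc p m
        rw [hgm] at this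
        exact this.symm
      have hpm' : inc p m ∧ inc (f p) m := by tauto
      have : m = l := inc_unique p (f p) m l hpne.symm hpm'.1 hpm'.2 hl1 hl2
      rw [this] at hqm
      exact hq hqm
    have hoff : ∀ q, ¬ inc q l → f q = q := by
      intro q hq
      by_contra hqne
      have hnf : (Sum.inl (s, q) : (Bool × ZMod 7) ⊕ (Bool × ZMod 7)) ∉ Fix φ := by
        intro hfx
        apply hqne
        simp only [Fix, act, Set.mem_setOf_eq, Sum.map_inl, hf1] at hfx
        simpa using hfx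
      rcases fold_cases h _ hnf with h1 | h1
      · -- `q ∈ L`: use the line through `q` and `f p`
        obtain ⟨m, hm1, hm2⟩ := inc_two q (f p)
        have := line_fixed h h1 hp'L (show HH (s, q) (s, m) from ⟨rfl, hm1⟩)
          (show HH (s, f p) (s, m) from ⟨rfl, hm2⟩)
        rw [hg1] at this
        exact hbad q m hq hm1 (Or.inr hm2) (by simpa using this)
      · -- `q ∈ φ(L)`: use the line through `p` and `q`
        obtain ⟨m, hm1, hm2⟩ := inc_two p q
        have := line_fixed h hpL h1 (show HH (s, p) (s, m) from ⟨rfl, hm1⟩)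
          (show HH (s, q) (s, m) from ⟨rfl, hm2⟩)
        rw [hg1] at this
        exact hbad q m hq hm2 (Or.inl hm1) (by simpa using this)
    obtain ⟨q, hq⟩ := inc_off l
    obtain ⟨m, hm1, hm2⟩ := inc_two p q
    have hpq : p ≠ q := fun e => hq (e ▸ hl1)
    obtain ⟨t, htp, htq, htm⟩ := inc_third p q m hpq hm1 hm2
    have htl : ¬ inc t l := by
      intro htl
      have : m = l := inc_unique p t m l (Ne.symm htp) hm1 htm hl1 htl
      rw [this] at hm2
      exact hq hm2
    have hfq := hoff q hq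
    have hft := hoff t htl
    have hgm : g m = m := by
      have a1 : inc q (g m) := by
        have := (hinc q m).2 hm2
        rwa [hfq] at this
      have a2 : inc t (g m) := by
        have := (hinc t m).2 htm
        rwa [hft] at this
      exact inc_unique q t (g m) m (Ne.symm htq) a1 a2 hm2 htm
    exact hbad q m hq hm2 (Or.inl hm1) hgm
  -- second: if one copy is preserved, so is the other, and then `φ = 1`
  have key2 : (φ.1 (s, 0)).1 ≠ s := by
    intro hs
    have hs' : (φ.1 (!s, 0)).1 = !s := by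
      by_contra hne
      have hne' : (φ.1 (!s, 0)).1 = s := by
        cases s <;> simp_all
      have h0 := key s hs (φ.1 (!s, 0)).2
      have h1 : φ.1 (!s, 0) = (s, (φ.1 (!s, 0)).2) := Prod.ext hne' rfl
      rw [← h1] at h0
      have h2 := φ.1.injective h0
      rw [h2] at hne'
      cases s <;> simp at hne'
    have hall : ∀ x, φ.1 x = x := by
      rintro ⟨t, i⟩
      by_cases ht : t = s
      · subst ht; exact key t hs i
      · have : t = !s := by cases s <;> cases t <;> simp_all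
        subst this; exact key _ hs' i
    apply h.1.2.1
    have hφ1 : φ.1 = 1 := Equiv.ext hall
    have hφ2 : φ.2 = 1 := by
      apply Equiv.ext
      rintro ⟨t, j⟩
      have hc : (φ.2 (t, j)).1 = t := by
        rw [← copy_line haut t 0 j, hall]
      have : (φ.2 (t, j)).2 = j := by
        apply inc_line
        intro i
        have := haut (t, i) (t, j)
        rw [hall] at this
        have e : φ.2 (t, j) = (t, (φ.2 (t, j)).2) := Prod.ext hc rfl
        rw [e] at this
        simpa [HH] using this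
      exact Prod.ext hc this
    exact Prod.ext hφ1 hφ2
  rw [copy_eq haut s i 0]
  cases s <;> simp_all

/-- Each copy is entirely inside or entirely outside `L`. -/
lemma fold_copy {φ : Equiv.Perm (Bool × ZMod 7) × Equiv.Perm (Bool × ZMod 7)}
    {L : Set ((Bool × ZMod 7) ⊕ (Bool × ZMod 7))} (h : IsFold HH φ L) (s : Bool) :
    ((∀ i, Sum.inl (s, i) ∈ L) ∧ (∀ j, Sum.inr (s, j) ∈ L)) ∨
    ((∀ i, Sum.inl (s, i) ∉ L) ∧ (∀ j, Sum.inr (s, j) ∉ L)) := by
  have haut := h.1.1
  have hnf1 : ∀ t i, (Sum.inl (t, i) : (Bool × ZMod 7) ⊕ (Bool × ZMod 7)) ∉ Fix φ := by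
    intro t i hfx
    have h1 := fold_swaps h t i
    simp only [Fix, act, Set.mem_setOf_eq, Sum.map_inl] at hfx
    have h2 : φ.1 (t, i) = (t, i) := by simpa using hfx
    rw [h2] at h1
    cases t <;> simp at h1
  have hnf2 : ∀ t j, (Sum.inr (t, j) : (Bool × ZMod 7) ⊕ (Bool × ZMod 7)) ∉ Fix φ := by
    intro t j hfx
    have h1 := fold_swaps h t 0
    rw [copy_line haut t 0 j] at h1
    simp only [Fix, act, Set.mem_setOf_eq, Sum.map_inr] at hfx
    have h2 : φ.2 (t, j) = (t, j) := by simpa using hfx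
    rw [h2] at h1
    cases t <;> simp at h1
  have step1 : ∀ i j, inc i j → (Sum.inl (s, i) ∈ L ↔ Sum.inr (s, j) ∈ L) := by
    intro i j hij
    constructor
    · intro hL
      exact fold_closed h hL (Or.inl ⟨_, _, rfl, rfl, ⟨rfl, hij⟩⟩) (hnf2 s j)
    · intro hL
      exact fold_closed h hL (Or.inr ⟨_, _, rfl, rfl, ⟨rfl, hij⟩⟩) (hnf1 s i)
  have step2 : ∀ i i', (Sum.inl (s, i) ∈ L ↔ Sum.inl (s, i') ∈ L) := by
    intro i i'
    obtain ⟨j, h1, h2⟩ := inc_two i i'
    exact (step1 i j h1).trans (step1 i' j h2).symm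
  by_cases h0 : Sum.inl (s, 0) ∈ L
  · left
    refine ⟨fun i => (step2 i 0).2 h0, fun j => ?_⟩
    obtain ⟨i, hi⟩ := inc_pt j
    exact (step1 i j hi).1 ((step2 i 0).2 h0)
  · right
    refine ⟨fun i hi => h0 ((step2 i 0).1 hi), fun j hj => ?_⟩
    obtain ⟨i, hi⟩ := inc_pt j
    exact h0 ((step2 i 0).1 ((step1 i j hi).2 hj))

/-- The set of edges of copy `s`. -/
def copyEdges (s : Bool) : Set ((Bool × ZMod 7) × (Bool × ZMod 7)) :=
  {e | e ∈ edges HH ∧ e.1.1 = s}

/-- The folding map is injective on the edges of each copy and maps them to one copy. -/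
lemma fold_inj {φ : Equiv.Perm (Bool × ZMod 7) × Equiv.Perm (Bool × ZMod 7)}
    {L : Set ((Bool × ZMod 7) ⊕ (Bool × ZMod 7))} (h : IsFold HH φ L) (s : Bool) :
    ∃ t, (∀ e ∈ copyEdges s, (foldV φ L e.1, foldW φ L e.2) ∈ copyEdges t) ∧
      ∀ e ∈ copyEdges s, ∀ e' ∈ copyEdges s,
        (foldV φ L e.1, foldW φ L e.2) = (foldV φ L e'.1, foldW φ L e'.2) → e = e' := by
  have haut := h.1.1
  rcases fold_copy h s with ⟨h1, h2⟩ | ⟨h1, h2⟩
  · refine ⟨s, ?_, ?_⟩
    · rintro ⟨⟨a, i⟩, ⟨b, j⟩⟩ ⟨he, hs⟩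
      simp only at hs
      subst hs
      have hb : a = b := he.1
      subst hb
      simp only [foldV, foldW, h1 i, h2 j, if_true]
      exact ⟨he, rfl⟩
    · rintro ⟨⟨a, i⟩, ⟨b, j⟩⟩ ⟨he, hs⟩ ⟨⟨a', i'⟩, ⟨b', j'⟩⟩ ⟨he', hs'⟩ heq
      simp only at hs hs'
      subst hs
      subst hs'
      have hb : a' = b := he.1
      have hb' : a' = b' := he'.1
      subst hb
      subst hb'
      simpa [foldV, foldW, h1, h2] using heq
  · refine ⟨!s, ?_, ?_⟩
    · rintro ⟨⟨a, i⟩, ⟨b, j⟩⟩ ⟨he, hs⟩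
      simp only at hs
      subst hs
      have hb : a = b := he.1
      subst hb
      simp only [foldV, foldW, h1 i, h2 j, if_false]
      refine ⟨(haut _ _).2 he, ?_⟩
      exact fold_swaps h a i
    · rintro ⟨⟨a, i⟩, ⟨b, j⟩⟩ ⟨he, hs⟩ ⟨⟨a', i'⟩, ⟨b', j'⟩⟩ ⟨he', hs'⟩ heq
      simp only at hs hs'
      subst hs
      subst hs'
      have hb : a' = b := he.1
      have hb' : a' = b' := he'.1
      subst hb
      subst hb'
      simp only [foldV, foldW, h1, h2, if_false, Prod.mk.injEq, EmbeddingLike.apply_eq_iff_eq]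
        at heq
      simpa using heq

theorem not_percolating : ¬ IsCutPercolating HH := by
  rintro ⟨m, s, hsub, h0, hm, hstep⟩
  have inv : ∀ i ≤ m, ∀ t, (s i ∩ copyEdges t).Subsingleton := by
    intro i
    induction i with
    | zero =>
      intro _ t
      obtain ⟨e, he⟩ := Set.ncard_eq_one.1 h0
      rw [he]
      intro x hx y hy
      have hx1 : x = e := hx.1
      have hy1 : y = e := hy.1
      rw [hx1, hy1]
    | succ i ih =>
      intro hi t
      obtain ⟨φ, L, hfold, heq⟩ := hstep i (by omega)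
      obtain ⟨t', ht1, ht2⟩ := fold_inj hfold t
      have ih' := ih (by omega) t'
      rintro e ⟨he1, he2⟩ e' ⟨he1', he2'⟩
      rw [heq] at he1 he1'
      exact ht2 e he2 e' he2' (ih' ⟨he1.2, ht1 e he2⟩ ⟨he1'.2, ht1 e' he2'⟩)
  have h1 := inv m le_rfl true
  rw [hm] at h1
  have a1 : (((true, 1), (true, 0)) : (Bool × ZMod 7) × (Bool × ZMod 7)) ∈
      edges HH ∩ copyEdges true := by
    have : HH (true, 1) (true, 0) := ⟨rfl, by decide⟩
    exact ⟨this, this, rfl⟩
  have a2 : (((true, 2), (true, 0)) : (Bool × ZMod 7) × (Bool × ZMod 7)) ∈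
      edges HH ∩ copyEdges true := by
    have : HH (true, 2) (true, 0) := ⟨rfl, by decide⟩
    exact ⟨this, this, rfl⟩
  have := h1 a1 a2
  revert this
  decide

/-! ## Transitivity -/

/-- The twisted exchange of the two copies attached to a permutation of `ZMod 7`. -/
def tw (α : Equiv.Perm (ZMod 7)) : Equiv.Perm (Bool × ZMod 7) where
  toFun x := if x.1 then (false, α.symm x.2) else (true, α x.2)
  invFun x := if x.1 then (false, α.symm x.2) else (true, α x.2)
  left_inv := by rintro ⟨a, i⟩; cases a <;> simp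
  right_inv := by rintro ⟨a, i⟩; cases a <;> simp

@[simp] lemma tw_false (α : Equiv.Perm (ZMod 7)) (i : ZMod 7) : tw α (false, i) = (true, α i) := by
  simp [tw]

@[simp] lemma tw_true (α : Equiv.Perm (ZMod 7)) (i : ZMod 7) :
    tw α (true, i) = (false, α.symm i) := by
  simp [tw]

lemma tw_isFold (α : Equiv.Perm (ZMod 7)) (hα : ∀ i j, inc (α i) (α j) ↔ inc i j) :
    IsFold HH (tw α, tw α) {x | Sum.elim Prod.fst Prod.fst x = false} := by
  have haut : ((tw α, tw α) : Equiv.Perm (Bool × ZMod 7) × Equiv.Perm (Bool × ZMod 7)) ∈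
      Aut HH := by
    rintro ⟨a, i⟩ ⟨b, j⟩
    have hα' : inc (α.symm i) (α.symm j) ↔ inc i j := by
      have := hα (α.symm i) (α.symm j)
      simpa using this.symm
    cases a <;> cases b <;> simp [HH, hα, hα']
  have hsw : ∀ x : (Bool × ZMod 7) ⊕ (Bool × ZMod 7),
      Sum.elim Prod.fst Prod.fst (act (tw α, tw α) x) = !(Sum.elim Prod.fst Prod.fst x) := by
    rintro (⟨a, i⟩ | ⟨a, i⟩) <;> cases a <;> simp [act]
  have hfix : Fix ((tw α, tw α) : Equiv.Perm (Bool × ZMod 7) × Equiv.Perm (Bool × ZMod 7)) = ∅ := by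
    ext x
    simp only [Fix, Set.mem_setOf_eq, Set.mem_empty_iff_false, iff_false]
    intro hx
    have := hsw x
    rw [hx] at this
    cases hh : (Sum.elim Prod.fst Prod.fst x : Bool) <;> rw [hh] at this <;> simp at this
  have hinv : ((tw α, tw α) : Equiv.Perm (Bool × ZMod 7) × Equiv.Perm (Bool × ZMod 7)) *
      (tw α, tw α) = 1 := by
    apply Prod.ext
    all_goals
      apply Equiv.ext
      rintro ⟨a, i⟩
      cases a <;> simp
  have hcopy : ∀ x y : (Bool × ZMod 7) ⊕ (Bool × ZMod 7), (graph HH).Adj x y →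
      (Sum.elim Prod.fst Prod.fst x : Bool) = Sum.elim Prod.fst Prod.fst y := by
    rintro x y (⟨v, w, rfl, rfl, h⟩ | ⟨v, w, rfl, rfl, h⟩)
    · exact h.1
    · exact h.1.symm
  have hreach : ∀ x y, (minusFix HH (tw α, tw α)).Reachable x y →
      (Sum.elim Prod.fst Prod.fst x.1 : Bool) = Sum.elim Prod.fst Prod.fst y.1 := by
    rintro x y ⟨p⟩
    induction p with
    | nil => rfl
    | cons h _ ih => exact (hcopy _ _ h).trans ih
  refine ⟨⟨haut, ?_, hinv, ?_⟩, ?_, ?_, ?_, ?_, ?_⟩
  · intro h1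
    have h2 := congrArg (fun f : Equiv.Perm (Bool × ZMod 7) × Equiv.Perm (Bool × ZMod 7) =>
      (f.1 (false, 0)).1) h1
    simp at h2
  · intro hpre
    have hm : ∀ x : (Bool × ZMod 7) ⊕ (Bool × ZMod 7), x ∈ (Fix ((tw α, tw α) :
        Equiv.Perm (Bool × ZMod 7) × Equiv.Perm (Bool × ZMod 7)))ᶜ := by
      intro x; rw [hfix]; simp
    have := hreach _ _ (hpre ⟨Sum.inl (false, 0), hm _⟩ ⟨Sum.inl (true, 0), hm _⟩)
    simp at this
  · refine ⟨{c | ∃ x, Sum.elim Prod.fst Prod.fst x.1 = false ∧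
      (minusFix HH (tw α, tw α)).connectedComponentMk x = c}, ?_⟩
    ext x
    simp only [Set.mem_setOf_eq]
    constructor
    · intro hx
      have hm : x ∈ (Fix ((tw α, tw α) :
        Equiv.Perm (Bool × ZMod 7) × Equiv.Perm (Bool × ZMod 7)))ᶜ := by
        rw [hfix]; simp
      exact ⟨hm, ⟨x, hm⟩, hx, rfl⟩
    · rintro ⟨hm, y, hy, hyx⟩
      rw [SimpleGraph.ConnectedComponent.eq] at hyx
      have := hreach _ _ hyx
      rw [← this]
      exact hy
  · ext x
    simp only [Set.mem_union, Set.mem_setOf_eq, Set.mem_univ, iff_true]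
    cases hx : (Sum.elim Prod.fst Prod.fst x : Bool)
    · exact Or.inl (Or.inl rfl)
    · right
      refine ⟨act (tw α, tw α) x, ?_, act_act hinv x⟩
      simp only [Set.mem_setOf_eq]
      rw [hsw, hx]
      rfl
  · rw [hfix]; simp
  · rw [Set.disjoint_left]
    rintro x hx ⟨y, hy, rfl⟩
    simp only [Set.mem_setOf_eq] at hx hy
    rw [hsw, hy] at hx
    simp at hx
  · rw [hfix]; simp

/-- The affine map `i ↦ a i + b` for a unit `a`. -/
def aff (a : (ZMod 7)ˣ) (b : ZMod 7) : Equiv.Perm (ZMod 7) where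
  toFun i := a * i + b
  invFun i := (a⁻¹ : (ZMod 7)ˣ) * (i - b)
  left_inv := by intro i; simp
  right_inv := by intro i; simp

lemma flag_trans : ∀ i j i' j' : ZMod 7, inc i j → inc i' j' →
    ∃ a b : ZMod 7, a * a * a = 1 ∧ a * i + b = i' ∧ a * j + b = j' := by
  intro i j i' j' h h'
  obtain ⟨a, ha, hd⟩ : ∃ a : ZMod 7, a * a * a = 1 ∧ a * (i - j) = i' - j' := by
    unfold inc at h h'
    generalize i - j = d at *
    generalize i' - j' = d' at *
    revert h h' d d'
    decide
  refine ⟨a, i' - a * i, ha, by ring, ?_⟩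
  have : a * j = a * i - (i' - j') := by rw [← hd]; ring
  rw [this]; ring

lemma aff_inc (a b : ZMod 7) (ha : a * a * a = 1) (i j : ZMod 7) :
    inc (a * i + b) (a * j + b) ↔ inc i j := by
  have e : (a * i + b) - (a * j + b) = a * (i - j) := by ring
  have key : ∀ a : ZMod 7, a * a * a = 1 → ∀ d : ZMod 7,
      ((a * d = 1 ∨ a * d = 2 ∨ a * d = 4) ↔ (d = 1 ∨ d = 2 ∨ d = 4)) := by decide
  unfold inc
  rw [e]
  exact key a ha (i - j)

theorem fold_transitive : IsFoldEdgeTransitive HH := by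
  refine ⟨⟨((true, 1), (true, 0)), ?_⟩, ?_⟩
  · have : HH (true, 1) (true, 0) := ⟨rfl, by decide⟩
    exact this
  · rintro ⟨⟨s, i⟩, ⟨s', j⟩⟩ he ⟨⟨t, i'⟩, ⟨t', j'⟩⟩ he'
    have hs : s = s' := he.1
    have ht : t = t' := he'.1
    subst hs
    subst ht
    have hij : inc i j := he.2
    have hij' : inc i' j' := he'.2
    -- affine permutation with `α i = i'`, `α j = j'`
    have exα : ∀ i j i' j' : ZMod 7, inc i j → inc i' j' → ∃ α : Equiv.Perm (ZMod 7),
        (∀ x y, inc (α x) (α y) ↔ inc x y) ∧ α i = i' ∧ α j = j' := by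
      intro i j i' j' h h'
      obtain ⟨a, b, ha, h1, h2⟩ := flag_trans i j i' j' h h'
      let u : (ZMod 7)ˣ := ⟨a, a * a, by rw [← mul_assoc]; exact ha, ha⟩
      refine ⟨aff u b, ?_, h1, h2⟩
      intro x y
      exact aff_inc a b ha x y
    have hmem : ∀ α : Equiv.Perm (ZMod 7), (∀ x y, inc (α x) (α y) ↔ inc x y) →
        ((tw α, tw α) : Equiv.Perm (Bool × ZMod 7) × Equiv.Perm (Bool × ZMod 7)) ∈
          foldGroup HH := by
      intro α hα
      exact Subgroup.subset_closure ⟨_, tw_isFold α hα⟩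
    have h1mem := hmem 1 (by intro x y; rfl)
    cases s <;> cases t
    · -- false → false
      obtain ⟨α, hα, h1, h2⟩ := exα i' j' i j hij' hij
      refine ⟨(tw α, tw α) * (tw 1, tw 1), Subgroup.mul_mem _ (hmem α hα) h1mem, ?_⟩
      have e1 : α.symm i = i' := by rw [← h1]; simp
      have e2 : α.symm j = j' := by rw [← h2]; simp
      simp [e1, e2]
    · obtain ⟨α, hα, h1, h2⟩ := exα i j i' j' hij hij'
      refine ⟨(tw α, tw α), hmem α hα, ?_⟩
      simp [h1, h2]
    · obtain ⟨α, hα, h1, h2⟩ := exα i' j' i j hij' hij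
      refine ⟨(tw α, tw α), hmem α hα, ?_⟩
      have e1 : α.symm i = i' := by rw [← h1]; simp
      have e2 : α.symm j = j' := by rw [← h2]; simp
      simp [e1, e2]
    · obtain ⟨α, hα, h1, h2⟩ := exα i j i' j' hij hij'
      refine ⟨(tw α, tw α) * (tw 1, tw 1), Subgroup.mul_mem _ (hmem α hα) h1mem, ?_⟩
      have e0 : ∀ k : ZMod 7, (Equiv.symm (1 : Equiv.Perm (ZMod 7))) k = k := fun _ => rfl
      simp [h1, h2, e0]

/-- There is a bigraph that is edge-transitive under the group generated by its fold involutions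
but that has no cut-percolating sequence. -/
theorem result : ∃ (V W : Type) (_ : Finite V) (_ : Finite W) (E : V → W → Prop),
    IsFoldEdgeTransitive E ∧ ¬ IsCutPercolating E :=
  ⟨Bool × ZMod 7, Bool × ZMod 7, inferInstance, inferInstance, HH, fold_transitive,
    not_percolating⟩

end Pool.Agent.Results.MP_98b297_co.CutPercolation
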